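import Pool.Agent.Work.MP_164b00_al.Hedge.Transport
import Mathlib.Analysis.InnerProductSpace.Continuous
import Mathlib.Topology.Algebra.Order.Floor
import Mathlib.Topology.Connected.TotallyDisconnected

/-!
An equivariant plane bundle on a torus whose involution reverses the orientation is trivial.
-/

namespace Pool.Agent.Work.MP_164b00_al.Hedge

open Function Real
open scoped RealInnerProductSpace

variable {E : Type*} [NormedAddCommGroup E] [InnerProductSpace ℝ E]

/-- A symmetric orthonormal frame of the family of planes `L`. -/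
structure Frame {V : Type*} [TopologicalSpace V] [Neg V] (L : V → Submodule ℝ E)
    (C : E →L[ℝ] E) (u v : V → E) : Prop where
  cu : Continuous u
  cv : Continuous v
  uu : ∀ x, ⟪u x, u x⟫ = 1
  vv : ∀ x, ⟪v x, v x⟫ = 1
  uv : ∀ x, ⟪u x, v x⟫ = 0
  mu : ∀ x, u x ∈ L x
  mv : ∀ x, v x ∈ L x
  sp : ∀ x, ∀ w ∈ L x, ∃ a b : ℝ, w = a • u x + b • v x
  su : ∀ x, u (-x) = C (u x)
  sv : ∀ x, v (-x) = -C (v x)

theorem gram {V : Type*} [TopologicalSpace V] [Neg V] (L : V → Submodule ℝ E) (C : E →L[ℝ] E)
    (hC : ∀ a b, ⟪C a, C b⟫ = ⟪a, b⟫) (p q : V → E) (hp : Continuous p) (hq : Continuous q)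
    (li : ∀ x (a b : ℝ), a • p x + b • q x = 0 → a = 0 ∧ b = 0)
    (mp : ∀ x, p x ∈ L x) (mq : ∀ x, q x ∈ L x)
    (sp : ∀ x, ∀ w ∈ L x, ∃ a b : ℝ, w = a • p x + b • q x)
    (s1 : ∀ x, p (-x) = C (p x)) (s2 : ∀ x, q (-x) = -C (q x)) : ∃ u v, Frame L C u v := by
  have nC : ∀ a, ‖C a‖ = ‖a‖ := fun a => by
    rw [norm_eq_sqrt_real_inner, hC, ← norm_eq_sqrt_real_inner]
  have p0 : ∀ x, ‖p x‖ ≠ 0 := fun x h => by
    have := li x 1 0 (by simp [norm_eq_zero.1 h])
    simp at this
  let u : V → E := fun x => ‖p x‖⁻¹ • p x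
  have cu : Continuous u := (hp.norm.inv₀ p0).smul hp
  have unit : ∀ w : E, ‖w‖ ≠ 0 → ⟪‖w‖⁻¹ • w, ‖w‖⁻¹ • w⟫ = 1 := fun w hw => by
    rw [real_inner_smul_left, real_inner_smul_right, real_inner_self_eq_norm_sq]
    field_simp
  have uu : ∀ x, ⟪u x, u x⟫ = 1 := fun x => unit _ (p0 x)
  have su : ∀ x, u (-x) = C (u x) := fun x => by simp only [u, s1, nC, map_smul]
  let r : V → E := fun x => q x - ⟪u x, q x⟫ • u x
  have cr : Continuous r := hq.sub ((cu.inner hq).smul cu)
  have r0 : ∀ x, ‖r x‖ ≠ 0 := fun x h => by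
    have := li x (-(⟪u x, q x⟫ * ‖p x‖⁻¹)) 1 (by
      rw [← norm_eq_zero.1 h]
      simp only [r, u, smul_smul]
      module)
    simp at this
  have sr : ∀ x, r (-x) = -C (r x) := fun x => by
    simp only [r, su, s2, inner_neg_right, hC, map_sub, map_smul]
    module
  refine ⟨u, fun x => ‖r x‖⁻¹ • r x, cu, (cr.norm.inv₀ r0).smul cr, uu, fun x => unit _ (r0 x),
    fun x => ?_, fun x => (L x).smul_mem _ (mp x), fun x => ?_, fun x w hw => ?_, su,
    fun x => ?_⟩
  · simp only [r, real_inner_smul_right, inner_sub_right, uu]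
    ring
  · exact (L x).smul_mem _ ((L x).sub_mem (mq x) ((L x).smul_mem _ ((L x).smul_mem _ (mp x))))
  · obtain ⟨a, b, rfl⟩ := sp x w hw
    refine ⟨a * ‖p x‖ + b * ⟪u x, q x⟫, b * ‖r x‖, ?_⟩
    have e1 : p x = ‖p x‖ • u x := by simp only [u, smul_smul, mul_inv_cancel₀ (p0 x), one_smul]
    have e2 : (b * ‖r x‖) • ‖r x‖⁻¹ • r x = b • r x := by
      rw [smul_smul, mul_assoc, mul_inv_cancel₀ (r0 x), mul_one]
    rw [e2]
    nth_rewrite 1 [e1]
    simp only [r]
    module
  · simp only [sr, norm_neg, nC, map_smul, smul_neg]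

/-- Agreement on the two opposite faces of the cube. -/
def Per {n : ℕ} {Y : Type*} (u : (Fin n → ℝ) → Y) (i : Fin n) : Prop :=
  ∀ x, u (update x i π) = u (update x i (-π))

theorem neg_update {n : ℕ} (x : Fin n → ℝ) (j : Fin n) (t : ℝ) :
    update (-x) j t = -update x j (-t) := by
  ext i
  by_cases h : i = j
  · subst h
    simp
  · simp [h]

theorem compare {u v u' : E} (uu : ⟪u, u⟫ = 1) (vv : ⟪v, v⟫ = 1)
    (uv : ⟪u, v⟫ = 0) (h : ∃ a b : ℝ, u' = a • u + b • v) :
    u' = ⟪u, u'⟫ • u + ⟪v, u'⟫ • v := by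
  obtain ⟨a, b, rfl⟩ := h
  have vu : ⟪v, u⟫ = 0 := by rw [real_inner_comm, uv]
  simp only [inner_add_right, real_inner_smul_right, uu, vv, uv, vu, mul_one, mul_zero, add_zero,
    zero_add]

theorem Frame.step {n : ℕ} {L : (Fin n → ℝ) → Submodule ℝ E} {C : E →L[ℝ] E}
    (hC : ∀ a b, ⟪C a, C b⟫ = ⟪a, b⟫) (hCC : ∀ a, C (C a) = a) (j : Fin n) (hL : Per L j)
    (hne : ∀ ε : ℝ, (∀ w ∈ L (update 0 j π), C w = ε • w) → ∀ w ∈ L (update 0 j π), w = 0)
    {u v : (Fin n → ℝ) → E} (h : Frame L C u v) (S : Finset (Fin n)) (hj : j ∉ S)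
    (hS : ∀ i ∈ S, Per u i ∧ Per v i) :
    ∃ u' v', Frame L C u' v' ∧ ∀ i ∈ insert j S, Per u' i ∧ Per v' i := by
  have cup : ∀ t : ℝ, Continuous fun x : Fin n → ℝ => update x j t := fun t =>
    continuous_id.update j continuous_const
  let a : (Fin n → ℝ) → ℝ := fun x => ⟪u (update x j (-π)), u (update x j π)⟫
  let b : (Fin n → ℝ) → ℝ := fun x => ⟪v (update x j (-π)), u (update x j π)⟫
  let c : (Fin n → ℝ) → ℝ := fun x => ⟪u (update x j (-π)), v (update x j π)⟫
  let d : (Fin n → ℝ) → ℝ := fun x => ⟪v (update x j (-π)), v (update x j π)⟫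
  have ca : Continuous a := (h.cu.comp (cup _)).inner (h.cu.comp (cup _))
  have cb : Continuous b := (h.cv.comp (cup _)).inner (h.cu.comp (cup _))
  have cc : Continuous c := (h.cu.comp (cup _)).inner (h.cv.comp (cup _))
  have cd : Continuous d := (h.cv.comp (cup _)).inner (h.cv.comp (cup _))
  have vu : ∀ x, ⟪v x, u x⟫ = 0 := fun x => by rw [real_inner_comm, h.uv]
  have e1 : ∀ x, u (update x j π) = a x • u (update x j (-π)) + b x • v (update x j (-π)) :=
    fun x => compare (h.uu _) (h.vv _) (h.uv _)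
      (h.sp _ _ (hL x ▸ h.mu _))
  have e2 : ∀ x, v (update x j π) = c x • u (update x j (-π)) + d x • v (update x j (-π)) :=
    fun x => compare (h.uu _) (h.vv _) (h.uv _)
      (h.sp _ _ (hL x ▸ h.mv _))
  have n1 : ∀ x, a x ^ 2 + b x ^ 2 = 1 := fun x => by
    have := h.uu (update x j π)
    rw [e1] at this
    simp only [inner_add_left, inner_add_right, real_inner_smul_left, real_inner_smul_right,
      h.uu, h.vv, h.uv, vu] at this
    linear_combination this
  have n2 : ∀ x, c x ^ 2 + d x ^ 2 = 1 := fun x => by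
    have := h.vv (update x j π)
    rw [e2] at this
    simp only [inner_add_left, inner_add_right, real_inner_smul_left, real_inner_smul_right,
      h.uu, h.vv, h.uv, vu] at this
    linear_combination this
  have n3 : ∀ x, a x * c x + b x * d x = 0 := fun x => by
    have := h.uv (update x j π)
    rw [e1, e2] at this
    simp only [inner_add_left, inner_add_right, real_inner_smul_left, real_inner_smul_right,
      h.uu, h.vv, h.uv, vu] at this
    linear_combination this
  have D2 : ∀ x, a x * d x - b x * c x = 1 ∨ a x * d x - b x * c x = -1 := fun x => by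
    rw [← mul_self_eq_one_iff]
    linear_combination (c x ^ 2 + d x ^ 2) * n1 x + n2 x - (a x * c x + b x * d x) * n3 x
  have D0 : a 0 * d 0 - b 0 * c 0 = 1 := by
    refine (D2 0).resolve_right fun hD => ?_
    have hc : c 0 = b 0 := by
      linear_combination (-c 0) * n1 0 + a 0 * n3 0 - b 0 * hD
    have hd : d 0 = -a 0 := by
      linear_combination (-d 0) * n1 0 + b 0 * n3 0 + a 0 * hD
    have m : update (0 : Fin n → ℝ) j (-π) = -update (0 : Fin n → ℝ) j π := by
      simpa using neg_update (0 : Fin n → ℝ) j (-π)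
    have f1 := congrArg C (e1 0)
    have f2 := congrArg C (e2 0)
    rw [m, h.su, h.sv] at f1 f2
    simp only [map_add, map_smul, map_neg, hCC, hc, hd] at f1 f2
    have b0 : b 0 = 0 := by
      have := hC (C (u (update 0 j π))) (v (update 0 j π))
      rw [hCC, f1, f2] at this
      simp only [inner_add_left, inner_add_right, real_inner_smul_left, real_inner_smul_right,
        inner_neg_left, inner_neg_right, h.uu, h.vv, h.uv] at this
      linarith
    have := hne (a 0) (fun w hw => by
      obtain ⟨s, t, rfl⟩ := h.sp _ w hw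
      rw [map_add, map_smul, map_smul, f1, f2, b0]
      module) _ (h.mu _)
    have u1 := h.uu (update 0 j π)
    rw [this] at u1
    simp at u1
  have D1 : ∀ x, a x * d x - b x * c x = 1 := fun x => by
    refine (D2 x).resolve_right fun hD => ?_
    obtain ⟨y, hy⟩ := intermediate_value_univ x 0 (f := fun x => a x * d x - b x * c x)
      (by fun_prop) (show (0 : ℝ) ∈ Set.Icc _ _ by
        simp only [hD, D0]
        norm_num)
    rcases D2 y with e | e <;> simp only [e] at hy <;> norm_num at hy
  have hc : ∀ x, c x = -b x := fun x => by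
    linear_combination (-c x) * n1 x + a x * n3 x - b x * D1 x
  have hd : ∀ x, d x = a x := fun x => by
    linear_combination (-d x) * n1 x + b x * n3 x + a x * D1 x
  obtain ⟨α, cα, hα⟩ := exists_angle a b ca cb n1
  have sa : ∀ x, a (-x) = a x := fun x => by
    simp only [a, neg_update, h.su, hC, neg_neg]
    exact real_inner_comm _ _
  have sb : ∀ x, b (-x) = b x := fun x => by
    have : b (-x) = -c x := by
      simp only [b, c, neg_update, h.su, h.sv, hC, neg_neg, inner_neg_left]
      rw [real_inner_comm]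
    rw [this, hc, neg_neg]
  have sα : ∀ x, α (-x) = α x := congrFun (angle_unique (fun x => α (-x)) α (by fun_prop) cα
    (fun x => by simp only [(hα _).1, (hα _).2, sa, sb, and_self]) 0 (by simp))
  have jα : ∀ t x, α (update x j t) = α (update x j 0) := fun t x => by
    have := angle_unique (fun s : ℝ => α (update x j s)) (fun _ => α (update x j 0))
      (cα.comp (continuous_const.update j continuous_id)) continuous_const
      (fun s => by simp only [(hα _).1, (hα _).2, a, b, update_idem, and_self]) 0 rfl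
    exact congrFun this t
  have pα : ∀ i ∈ S, Per α i := fun i hi => by
    have ij : i ≠ j := fun e => hj (e ▸ hi)
    refine congrFun (angle_unique (fun x => α (update x i π)) (fun x => α (update x i (-π)))
      (cα.comp (continuous_id.update i continuous_const))
      (cα.comp (continuous_id.update i continuous_const)) (fun x => ?_) 0 ?_)
    · simp only [(hα _).1, (hα _).2, a, b, update_comm ij, (hS i hi).1 _, (hS i hi).2 _, and_self]
    · have : update (0 : Fin n → ℝ) i (-π) = -update (0 : Fin n → ℝ) i π := by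
        simpa using neg_update (0 : Fin n → ℝ) i (-π)
      simp only [this, sα]
  let β : (Fin n → ℝ) → ℝ := fun x => x j / (2 * π) * α x
  have cβ : Continuous β := by fun_prop
  have sβ : ∀ x, β (-x) = -β x := fun x => by
    simp only [β, sα, Pi.neg_apply]
    ring
  have cs := fun x => cos_sq_add_sin_sq (β x)
  refine ⟨fun x => cos (β x) • u x - sin (β x) • v x, fun x => sin (β x) • u x + cos (β x) • v x,
    ⟨?_, ?_, fun x => ?_, fun x => ?_, fun x => ?_, fun x => ?_, fun x => ?_, fun x w hw => ?_,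
      fun x => ?_, fun x => ?_⟩, fun i hi => ?_⟩
  · have := h.cu
    have := h.cv
    fun_prop
  · have := h.cu
    have := h.cv
    fun_prop
  · simp only [inner_sub_left, inner_sub_right, real_inner_smul_left, real_inner_smul_right,
      h.uu, h.vv, h.uv, vu]
    linear_combination cs x
  · simp only [inner_add_left, inner_add_right, real_inner_smul_left, real_inner_smul_right,
      h.uu, h.vv, h.uv, vu]
    linear_combination cs x
  · simp only [inner_sub_left, inner_add_right, real_inner_smul_left, real_inner_smul_right,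
      h.uu, h.vv, h.uv, vu]
    ring
  · exact (L x).sub_mem ((L x).smul_mem _ (h.mu x)) ((L x).smul_mem _ (h.mv x))
  · exact (L x).add_mem ((L x).smul_mem _ (h.mu x)) ((L x).smul_mem _ (h.mv x))
  · obtain ⟨s, t, rfl⟩ := h.sp x w hw
    refine ⟨s * cos (β x) - t * sin (β x), s * sin (β x) + t * cos (β x), ?_⟩
    match_scalars
    · linear_combination (-s) * cs x
    · linear_combination (-t) * cs x
  · simp only [sβ, cos_neg, sin_neg, h.su, h.sv, map_sub, map_smul]
    module
  · simp only [sβ, cos_neg, sin_neg, h.su, h.sv, map_add, map_smul]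
    module
  · rcases Finset.mem_insert.1 hi with rfl | hi
    · have b1 : ∀ x, β (update x i π) = α (update x i 0) / 2 := fun x => by
        simp only [β, update_self, jα π]
        field_simp
      have b2 : ∀ x, β (update x i (-π)) = -(α (update x i 0) / 2) := fun x => by
        simp only [β, update_self, jα (-π)]
        field_simp
      have ea : ∀ x, a x = 2 * cos (α (update x i 0) / 2) ^ 2 - 1 := fun x => by
        rw [← cos_two_mul, mul_div_cancel₀ _ two_ne_zero, (hα _).1]
        simp only [a, update_idem]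
      have eb : ∀ x, b x = 2 * sin (α (update x i 0) / 2) * cos (α (update x i 0) / 2) :=
        fun x => by
          rw [← sin_two_mul, mul_div_cancel₀ _ two_ne_zero, (hα _).2]
          simp only [b, update_idem]
      constructor <;> intro x <;> have := cos_sq_add_sin_sq (α (update x i 0) / 2) <;>
        simp only [b1, b2, cos_neg, sin_neg, e1 x, e2 x, hc, hd, ea, eb] <;> match_scalars
      · linear_combination (2 * cos (α (update x i 0) / 2)) * this
      · ring
      · ring
      · linear_combination (2 * cos (α (update x i 0) / 2)) * this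
    · have ij : j ≠ i := fun e => hj (e ▸ hi)
      have : Per β i := fun x => by simp only [β, update_of_ne ij, pα i hi x]
      exact ⟨fun x => by simp only [this x, (hS i hi).1 x, (hS i hi).2 x],
        fun x => by simp only [this x, (hS i hi).1 x, (hS i hi).2 x]⟩

/-- Reduction to the interval `[-π, π)`. -/
noncomputable def wrap (t : ℝ) : ℝ := 2 * π * Int.fract ((t + π) / (2 * π)) - π

theorem wrap_mem (t : ℝ) : -π ≤ wrap t ∧ wrap t ≤ π := by
  have := Int.fract_nonneg ((t + π) / (2 * π))
  have := Int.fract_lt_one ((t + π) / (2 * π))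
  have := pi_pos
  constructor <;> unfold wrap <;> nlinarith

theorem wrap_add (t : ℝ) (m : ℤ) : wrap (t + m * (2 * π)) = wrap t := by
  have : (t + m * (2 * π) + π) / (2 * π) = (t + π) / (2 * π) + m := by
    field_simp
    ring
  rw [wrap, this, Int.fract_add_intCast, wrap]

theorem wrap_eq (t : ℝ) : wrap t + (⌊(t + π) / (2 * π)⌋ : ℤ) * (2 * π) = t := by
  rw [wrap, Int.fract]
  field_simp
  ring

theorem descend {n : ℕ} {Y : Type*} [TopologicalSpace Y] (u : (Fin n → ℝ) → Y)
    (hu : Continuous u) (hp : ∀ i, Per u i) : Continuous fun x : Fin n → ℝ =>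
      u fun i => wrap (x i) := by
  have key : ∀ S : Finset (Fin n),
      Continuous fun x : Fin n → ℝ => u fun i => if i ∈ S then wrap (x i) else x i := by
    intro S
    induction S using Finset.induction_on with
    | empty => simpa using hu
    | insert j S hj ih =>
      have e : ∀ (x : Fin n → ℝ) (t : ℝ), (fun i => if i ∈ S then wrap (update x j t i)
          else update x j t i) = update (fun i => if i ∈ S then wrap (x i) else x i) j t := by
        intro x t
        ext i
        by_cases h : i = j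
        · subst h
          simp [hj]
        · simp [h]
      have := ContinuousOn.comp_fract (s := fun x : Fin n → ℝ => (x j + π) / (2 * π))
        (f := fun (x : Fin n → ℝ) (t : ℝ) => u fun i => if i ∈ S then
          wrap (update x j (2 * π * t - π) i) else update x j (2 * π * t - π) i)
        (ih.comp (continuous_fst.update j (by fun_prop))).continuousOn (by fun_prop) fun x => by
          simp only [e, mul_zero, zero_sub, mul_one, show 2 * π - π = π by ring]
          exact (hp j _).symm
      refine this.congr fun x => congrArg u ?_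
      rw [e]
      ext i
      by_cases h : i = j
      · subst h
        simp [wrap]
      · simp [h]
  simpa using key Finset.univ

/-- Projection to the cube. -/
noncomputable def cl {n : ℕ} (x : Fin n → ℝ) : Fin n → ℝ := fun i => max (-π) (min π (x i))

theorem cl_of {n : ℕ} {x : Fin n → ℝ} (h : ∀ i, -π ≤ x i ∧ x i ≤ π) : cl x = x := by
  ext i
  rw [cl, min_eq_right (h i).2, max_eq_right (h i).1]

theorem cl_neg {n : ℕ} (x : Fin n → ℝ) : cl (-x) = -cl x := by
  ext i
  have := pi_pos
  simp only [cl, Pi.neg_apply, max_def, min_def]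
  split_ifs <;> linarith

theorem cl_update {n : ℕ} (x : Fin n → ℝ) (j : Fin n) {t : ℝ} (h : -π ≤ t ∧ t ≤ π) :
    cl (update x j t) = update (cl x) j t := by
  ext i
  by_cases e : i = j
  · subst e
    simp [cl, h.1, h.2]
  · simp [cl, e]

theorem norm_cl {n : ℕ} (x : Fin n → ℝ) : ‖cl x‖ ≤ π := by
  have := pi_pos
  refine (pi_norm_le_iff_of_nonneg pi_pos.le).2 fun i => abs_le.2 ⟨le_max_left _ _, ?_⟩
  exact max_le (by linarith) (min_le_left _ _)

theorem exists_section [CompleteSpace E] {n : ℕ} (X : (Fin n → ℝ) → E →L[ℝ] E)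
    (hX : Continuous X) (hid : ∀ x, X x * X x = X x) (C : E →L[ℝ] E)
    (hC : ∀ a b, ⟪C a, C b⟫ = ⟪a, b⟫) (hCC : ∀ a, C (C a) = a)
    (hsym : ∀ x, X (-x) = C * X x * C)
    (hper : ∀ x (m : Fin n → ℤ), X (x + fun i => m i * (2 * π)) = X x)
    (e₁ e₂ : E) (n₁ : e₁ ≠ 0) (n₂ : e₂ ≠ 0) (c₁ : C e₁ = e₁) (c₂ : C e₂ = -e₂)
    (x₁ : X 0 e₁ = e₁) (x₂ : X 0 e₂ = e₂) (hsp : ∀ w, ∃ a b : ℝ, X 0 w = a • e₁ + b • e₂)
    (hne : ∀ j (ε : ℝ), (∀ w, C (X (update 0 j π) w) = ε • X (update 0 j π) w) →
      X (update 0 j π) = 0) :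
    ∃ γ : (Fin n → ℝ) → E, Continuous γ ∧
      (∀ x (m : Fin n → ℤ), γ (x + fun i => m i * (2 * π)) = γ x) ∧
      ∀ x, X x (γ x) = γ x ∧ ‖γ x‖ = 1 := by
  have hp := pi_pos
  obtain ⟨U, cU, sU, hU⟩ := transport X hX hid C (by ext a; simp [hCC]) hsym π
  have ccl : Continuous (cl (n := n)) := by
    unfold cl
    fun_prop
  let L : (Fin n → ℝ) → Submodule ℝ E := fun x => LinearMap.range (X (cl x)).toLinearMap
  have int : ∀ x w, X (cl x) (U (cl x) w) = U (cl x) (X 0 w) := fun x w =>
    congrArg (fun T : E →L[ℝ] E => T w) (hU _ (norm_cl x)).2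
  obtain ⟨u₀, v₀, h₀⟩ := gram L C hC (fun x => U (cl x) e₁) (fun x => U (cl x) e₂)
    (by fun_prop) (by fun_prop)
    (fun x a b h => by
      obtain ⟨W, hW⟩ := (hU _ (norm_cl x)).1.exists_left_inv
      have h1 : a • e₁ + b • e₂ = 0 := by
        have := congrArg (fun T : E →L[ℝ] E => T (a • e₁ + b • e₂)) hW
        simp only [mul_apply_eq_comp, map_add (U _), map_smul (U _), h, map_zero,
          one_apply_eq_self] at this
        exact this.symm
      have h2 := congrArg C h1
      rw [map_add, map_smul, map_smul, c₁, c₂, map_zero] at h2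
      have h3 : (2 * a) • e₁ = 0 := by linear_combination (norm := module) h1 + h2
      have h4 : (2 * b) • e₂ = 0 := by linear_combination (norm := module) h1 - h2
      simp only [smul_eq_zero, n₁, n₂, or_false, mul_eq_zero, OfNat.ofNat_ne_zero, false_or]
        at h3 h4
      exact ⟨h3, h4⟩)
    (fun x => ⟨U (cl x) e₁, by simp [int, x₁]⟩) (fun x => ⟨U (cl x) e₂, by simp [int, x₂]⟩)
    (fun x w hw => by
      obtain ⟨w, rfl⟩ := hw
      obtain ⟨W, hW⟩ := (hU _ (norm_cl x)).1.exists_right_inv
      have h1 : U (cl x) (W w) = w := congrArg (fun T : E →L[ℝ] E => T w) hW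
      obtain ⟨a, b, e⟩ := hsp (W w)
      refine ⟨a, b, ?_⟩
      rw [← h1, ContinuousLinearMap.coe_coe, int, e, map_add, map_smul, map_smul])
    (fun x => by simp [cl_neg, sU, c₁]) (fun x => by simp [cl_neg, sU, c₂])
  have hL : ∀ j, Per L j := fun j x => by
    have := hper (update (cl x) j (-π)) (Pi.single j 1)
    simp only [L]
    rw [cl_update x j ⟨by linarith, le_rfl⟩, cl_update x j ⟨le_rfl, by linarith⟩, ← this]
    congr 3
    ext i
    by_cases e : i = j
    · subst e
      simp
      ring
    · simp [e]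
  have key : ∀ S : Finset (Fin n), ∃ u v, Frame L C u v ∧ ∀ i ∈ S, Per u i ∧ Per v i := by
    intro S
    induction S using Finset.induction_on with
    | empty => exact ⟨u₀, v₀, h₀, by simp⟩
    | insert j S hj ih =>
      obtain ⟨u, v, h, hS⟩ := ih
      refine h.step hC hCC j (hL j) (fun ε hε => ?_) S hj hS
      have e : cl (update (0 : Fin n → ℝ) j π) = update (0 : Fin n → ℝ) j π := by
        rw [cl_update _ _ ⟨by linarith, le_rfl⟩, cl_of fun i => by simp [hp.le]]
      simp only [L, e] at hε ⊢
      rintro _ ⟨w, rfl⟩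
      rw [hne j ε fun w => hε _ ⟨w, rfl⟩]
      simp
  obtain ⟨u, v, h, hS⟩ := key Finset.univ
  refine ⟨fun x => u fun i => wrap (x i), descend u h.cu fun i => (hS i (Finset.mem_univ i)).1,
    fun x m => by simp only [Pi.add_apply, wrap_add], fun x => ⟨?_, ?_⟩⟩
  · obtain ⟨w, hw⟩ := h.mu fun i => wrap (x i)
    rw [cl_of fun i => wrap_mem _, ← hper _ fun i => ⌊(x i + π) / (2 * π)⌋] at hw
    have e : ((fun i => wrap (x i)) + fun i => (⌊(x i + π) / (2 * π)⌋ : ℤ) * (2 * π)) = x :=
      funext fun i => wrap_eq (x i)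
    rw [e] at hw
    beta_reduce
    rw [← hw]
    exact congrArg (fun T : E →L[ℝ] E => T w) (hid x)
  · rw [norm_eq_sqrt_real_inner, h.uu, Real.sqrt_one]

end Pool.Agent.Work.MP_164b00_al.Hedge
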