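import Pool.Agent.Work.MP_164b00_al.Hedge.Frame
import Mathlib.Analysis.Calculus.BumpFunction.SmoothApprox

/-!
Smoothing a periodic section.
-/

namespace Pool.Agent.Work.MP_164b00_al.Hedge

open Real Metric MeasureTheory
open scoped ContDiff Convolution

theorem smooth_section {E : Type*} [NormedAddCommGroup E] [NormedSpace ℝ E] [CompleteSpace E]
    {n : ℕ} (X : (Fin n → ℝ) → E →L[ℝ] E) (hX : Continuous X)
    (hper : ∀ x (m : Fin n → ℤ), X (x + fun i => m i * (2 * π)) = X x)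
    (γ : (Fin n → ℝ) → E) (hγ : Continuous γ)
    (pγ : ∀ x (m : Fin n → ℤ), γ (x + fun i => m i * (2 * π)) = γ x)
    (h : ∀ x, X x (γ x) = γ x ∧ ‖γ x‖ = 1) :
    ∃ g : (Fin n → ℝ) → E, ContDiff ℝ ∞ g ∧
      (∀ x (m : Fin n → ℤ), g (x + fun i => m i * (2 * π)) = g x) ∧ ∀ x, X x (g x) ≠ 0 := by
  have hK : IsCompact (closedBall (0 : Fin n → ℝ) π) := isCompact_closedBall 0 π
  obtain ⟨M, hM⟩ := hK.exists_bound_of_continuousOn hX.continuousOn
  have hM1 : 0 < |M| + 1 := by positivity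
  obtain ⟨δ, hδ, hu⟩ := Metric.mem_uniformity_dist.1
    (hK.uniformContinuousAt_of_continuousAt γ (fun _ _ => hγ.continuousAt)
      (dist_mem_uniformity (show 0 < 1 / (|M| + 1) by positivity)))
  let φ : ContDiffBump (0 : Fin n → ℝ) := ⟨δ / 2, δ, half_pos hδ, half_lt_self hδ⟩
  let g : (Fin n → ℝ) → E := φ.normed volume ⋆[ContinuousLinearMap.lsmul ℝ ℝ, volume] γ
  have pg : ∀ x (m : Fin n → ℤ), g (x + fun i => m i * (2 * π)) = g x := fun x m => by
    simp only [g, convolution_def, add_sub_right_comm, pγ]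
  refine ⟨g, φ.hasCompactSupport_normed.contDiff_convolution_left _ φ.contDiff_normed
    hγ.locallyIntegrable, pg, fun x => ?_⟩
  have e : ((fun i => wrap (x i)) + fun i => (⌊(x i + π) / (2 * π)⌋ : ℤ) * (2 * π)) = x :=
    funext fun i => wrap_eq (x i)
  rw [← e, pg, hper]
  set y : Fin n → ℝ := fun i => wrap (x i)
  have hy : y ∈ closedBall (0 : Fin n → ℝ) π := by
    rw [mem_closedBall_zero_iff]
    exact (pi_norm_le_iff_of_nonneg pi_pos.le).2 fun i => abs_le.2 (wrap_mem _)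
  have d : dist (g y) (γ y) ≤ 1 / (|M| + 1) :=
    φ.dist_normed_convolution_le hγ.aestronglyMeasurable fun z hz => by
      rw [dist_comm]
      exact (hu (by rwa [dist_comm]) hy).le
  intro h0
  have e1 : X y (γ y - g y) = γ y := by rw [map_sub, h0, sub_zero, (h y).1]
  have e2 := (X y).le_opNorm (γ y - g y)
  rw [e1, (h y).2, ← dist_eq_norm, dist_comm] at e2
  have e3 : ‖X y‖ * dist (g y) (γ y) ≤ |M| * (1 / (|M| + 1)) := by
    gcongr
    exact (hM y hy).trans (le_abs_self M)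
  have e4 : |M| * (1 / (|M| + 1)) < 1 := by
    rw [mul_one_div, div_lt_one hM1]
    linarith
  linarith

end Pool.Agent.Work.MP_164b00_al.Hedge
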