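import Pool.Agent.Work.MP_164b00_al.Hedge.Traces
import Pool.Agent.Work.MP_164b00_al.Hedge.Smooth
import Mathlib.Analysis.InnerProductSpace.PiL2
import Mathlib.LinearAlgebra.Projection

/-!
The stably free module of rank two is indecomposable.
-/

namespace Pool.Agent.Work.MP_164b00_al.Hedge

open Multiplicative Complex
open scoped ComplexConjugate Real RealInnerProductSpace ContDiff

/-- Six dimensional Euclidean space. -/
abbrev Eu : Type := PiLp 2 fun _ : Fin 3 => ℂ

/-- Complex conjugation. -/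
noncomputable def CE : Eu →L[ℝ] Eu :=
  LinearMap.toContinuousLinearMap
    { toFun := fun w => WithLp.toLp 2 fun i => conj (w i)
      map_add' := fun a b => by
        ext i
        simp
      map_smul' := fun a b => by
        ext i
        simp }

theorem CE_apply (w : Eu) (i : Fin 3) : CE w i = conj (w i) := rfl

theorem CE_inner (a b : Eu) : ⟪CE a, CE b⟫ = ⟪a, b⟫ := by
  simp [PiLp.inner_apply, CE_apply, Complex.inner]

theorem CE_CE (a : Eu) : CE (CE a) = a := by
  ext i
  simp [CE_apply]

variable {k : Type} [CommRing k] (φ : k →+* ℝ)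

/-- A matrix over the group ring acting in the real representation. -/
noncomputable def mact (X : Matrix (Fin 3) (Fin 3) (MonoidAlgebra k Grp)) (θ : Fin 4 → ℝ) :
    Eu →L[ℝ] Eu :=
  LinearMap.toContinuousLinearMap
    { toFun := fun w => WithLp.toLp 2 fun i => ∑ l, Rep φ θ (X i l) (w l)
      map_add' := fun a b => by
        ext i
        simp [Finset.sum_add_distrib]
      map_smul' := fun a b => by
        ext i
        simp only [PiLp.smul_apply, map_smul, RingHom.id_apply, Finset.smul_sum] }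

theorem mact_apply (X : Matrix (Fin 3) (Fin 3) (MonoidAlgebra k Grp)) (θ : Fin 4 → ℝ) (w : Eu)
    (i : Fin 3) : mact φ X θ w i = ∑ l, Rep φ θ (X i l) (w l) := rfl

theorem mact_mul (X Y : Matrix (Fin 3) (Fin 3) (MonoidAlgebra k Grp)) (θ : Fin 4 → ℝ) :
    mact φ X θ * mact φ Y θ = mact φ (X * Y) θ := by
  ext w i
  simp only [mul_apply_eq_comp, mact_apply, Matrix.mul_apply, map_sum, map_mul,
    LinearMap.sum_apply, Module.End.mul_apply]
  exact Finset.sum_comm

theorem cont_Rep (c : MonoidAlgebra k Grp) (z : ℂ) : Continuous fun θ => Rep φ θ c z := by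
  induction c using MonoidAlgebra.induction_linear with
  | zero => simpa using continuous_const
  | add a b ha hb => simpa using ha.fun_add hb
  | single g a =>
    have := cont_chi g.left
    simp only [Rep_single]
    fun_prop

theorem cont_mact (X : Matrix (Fin 3) (Fin 3) (MonoidAlgebra k Grp)) : Continuous (mact φ X) := by
  refine continuous_clm_apply.2 fun w => ?_
  refine (PiLp.continuous_toLp 2 _).comp (continuous_pi fun i => ?_)
  exact continuous_finsetSum _ fun l _ => cont_Rep φ _ _

theorem Rep_neg (θ : Fin 4 → ℝ) (c : MonoidAlgebra k Grp) (z : ℂ) :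
    Rep φ (-θ) c z = conj (Rep φ θ c (conj z)) := by
  induction c using MonoidAlgebra.induction_linear with
  | zero => simp
  | add a b ha hb => simp [ha, hb]
  | single g a =>
    have e1 : chi (-θ) g.left = conj (chi θ g.left) := by simp [chi, ← Complex.exp_conj]
    have e2 : conj (cj g.right (conj z)) = cj g.right z := by
      by_cases h : Even g.right.toAdd
      · simp [cj_even h]
      · simp [cj_odd h]
    simp only [Rep_single, map_mul, conj_ofReal, e1, e2]

theorem mact_neg (X : Matrix (Fin 3) (Fin 3) (MonoidAlgebra k Grp)) (θ : Fin 4 → ℝ) :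
    mact φ X (-θ) = CE * mact φ X θ * CE := by
  ext w i
  simp only [mul_apply_eq_comp, mact_apply, CE_apply, map_sum, Rep_neg]

theorem Rep_per (θ : Fin 4 → ℝ) (m : Fin 4 → ℤ) (c : MonoidAlgebra k Grp) (z : ℂ) :
    Rep φ (θ + fun i => m i * (2 * π)) c z = Rep φ θ c z := by
  induction c using MonoidAlgebra.induction_linear with
  | zero => simp
  | add a b ha hb => simp [ha, hb]
  | single g a =>
    have : chi (θ + fun i => m i * (2 * π)) g.left = chi θ g.left := by
      have e : (∑ i, (g.left.toAdd i : ℝ) * (m i * (2 * π)) : ℝ) * I =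
          (∑ i, g.left.toAdd i * m i : ℤ) * (2 * π * I) := by
        push_cast
        simp only [Finset.sum_mul, mul_assoc]
      simp only [chi, Pi.add_apply, mul_add, Finset.sum_add_distrib, ofReal_add, add_mul,
        Complex.exp_add]
      rw [e, Complex.exp_int_mul_two_pi_mul_I, mul_one]
    simp only [Rep_single, this]

theorem mact_per (X : Matrix (Fin 3) (Fin 3) (MonoidAlgebra k Grp)) (θ : Fin 4 → ℝ)
    (m : Fin 4 → ℤ) : mact φ X (θ + fun i => m i * (2 * π)) = mact φ X θ := by
  ext w i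
  simp only [mact_apply, Rep_per]

theorem Rep_fx {θ : Fin 4 → ℝ} (h : Fx θ) (c : MonoidAlgebra k Grp) (z : ℂ) :
    Rep φ θ c z = Ch φ h 0 c * z.re + Ch φ h π c * z.im * I := by
  induction c using MonoidAlgebra.induction_linear with
  | zero => simp
  | add a b ha hb =>
    simp only [map_add, LinearMap.add_apply, ha, hb]
    ring
  | single g a =>
    rw [Rep_single, Ch_single, Ch_single, ez_zero, ez_pi]
    by_cases hg : Even g.right.toAdd
    · rw [if_pos hg, cj_even hg]
      linear_combination (-(φ a) * chi θ g.left) * re_add_im z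
    · have : conj z = z.re - z.im * I := by
        apply Complex.ext <;> simp
      rw [if_neg hg, cj_odd hg, this]
      ring

theorem Ch_real {θ : Fin 4 → ℝ} (h : Fx θ) {ψ : ℝ} (hψ : ψ = 0 ∨ ψ = π) (c : MonoidAlgebra k Grp) :
    ((Ch φ h ψ c).re : ℂ) = Ch φ h ψ c := by
  rw [← conj_eq_iff_re]
  induction c using MonoidAlgebra.induction_linear with
  | zero => simp
  | add a b ha hb => simp [ha, hb]
  | single g a =>
    have : conj (ez ψ g.right) = ez ψ g.right := by
      rcases hψ with rfl | rfl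
      · simp [ez_zero]
      · rw [ez_pi]
        split_ifs <;> simp
    simp only [Ch_single, map_mul, conj_ofReal, h g.left, this]

/-- The real matrix of a real character. -/
noncomputable def Yr {θ : Fin 4 → ℝ} (h : Fx θ) (ψ : ℝ)
    (X : Matrix (Fin 3) (Fin 3) (MonoidAlgebra k Grp)) : Matrix (Fin 3) (Fin 3) ℝ :=
  Matrix.of fun i j => (Ch φ h ψ (X i j)).re

theorem Yr_map {θ : Fin 4 → ℝ} (h : Fx θ) {ψ : ℝ} (hψ : ψ = 0 ∨ ψ = π)
    (X : Matrix (Fin 3) (Fin 3) (MonoidAlgebra k Grp)) :
    (Yr φ h ψ X).map ofRealHom = X.map (Ch φ h ψ) := by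
  ext i j
  exact Ch_real φ h hψ _

theorem Yr_idem {θ : Fin 4 → ℝ} (h : Fx θ) {ψ : ℝ} (hψ : ψ = 0 ∨ ψ = π)
    {X : Matrix (Fin 3) (Fin 3) (MonoidAlgebra k Grp)} (hX : X * X = X) :
    Yr φ h ψ X * Yr φ h ψ X = Yr φ h ψ X := by
  refine Matrix.map_injective (f := ofRealHom) ofReal_injective ?_
  simp only
  rw [Matrix.map_mul, Yr_map φ h hψ, ← Matrix.map_mul, hX]

theorem Yr_trace {θ : Fin 4 → ℝ} (h : Fx θ) {ψ : ℝ} (hψ : ψ = 0 ∨ ψ = π)
    (X : Matrix (Fin 3) (Fin 3) (MonoidAlgebra k Grp)) :
    ((Yr φ h ψ X).trace : ℂ) = (X.map (Ch φ h ψ)).trace := by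
  rw [← Yr_map φ h hψ]
  simp [Matrix.trace]

theorem mact_fx {θ : Fin 4 → ℝ} (h : Fx θ) (X : Matrix (Fin 3) (Fin 3) (MonoidAlgebra k Grp))
    (w : Eu) (i : Fin 3) : mact φ X θ w i = ((Yr φ h 0 X).mulVec (fun l => (w l).re) i : ℝ) +
      ((Yr φ h π X).mulVec (fun l => (w l).im) i : ℝ) * I := by
  simp only [mact_apply, Rep_fx φ h, Matrix.mulVec, dotProduct, Yr, Matrix.of_apply, ofReal_sum,
    ofReal_mul, Ch_real φ h (Or.inl rfl), Ch_real φ h (Or.inr rfl), Finset.sum_add_distrib,
    Finset.sum_mul]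

theorem mact_zero {θ : Fin 4 → ℝ} (h : Fx θ) {X : Matrix (Fin 3) (Fin 3) (MonoidAlgebra k Grp)}
    (hX : X * X = X) (ε : ℝ) (hε : ∀ w, CE (mact φ X θ w) = ε • mact φ X θ w) :
    mact φ X θ = 0 := by
  have tr : (Yr φ h π X).trace = (Yr φ h 0 X).trace := by
    apply ofReal_injective
    rw [Yr_trace φ h (Or.inr rfl), Yr_trace φ h (Or.inl rfl), trace_Ch φ h X hX]
  have e : ∀ (w : Eu) i, (1 - ε) * (Yr φ h 0 X).mulVec (fun l => (w l).re) i = 0 ∧
      (1 + ε) * (Yr φ h π X).mulVec (fun l => (w l).im) i = 0 := fun w i => by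
    have := congrArg (fun v : Eu => v i) (hε w)
    simp only [CE_apply, PiLp.smul_apply, mact_fx φ h] at this
    have h1 := congrArg Complex.re this
    have h2 := congrArg Complex.im this
    simp at h1 h2
    constructor <;> linarith
  have both : Yr φ h 0 X = 0 ∧ Yr φ h π X = 0 := by
    by_cases h1 : ε = 1
    · have : Yr φ h π X = 0 := by
        ext i j
        simpa [h1, Pi.single_apply, apply_ite, Matrix.mulVec, dotProduct] using
          (e (WithLp.toLp 2 (Pi.single j I)) i).2
      exact ⟨idem_zero _ (Yr_idem φ h (Or.inl rfl) hX) (by rw [← tr, this, Matrix.trace_zero]),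
        this⟩
    · have : Yr φ h 0 X = 0 := by
        ext i j
        simpa [sub_eq_zero, Ne.symm h1, Pi.single_apply, apply_ite, Matrix.mulVec, dotProduct]
          using (e (WithLp.toLp 2 (Pi.single j 1)) i).1
      exact ⟨this, idem_zero _ (Yr_idem φ h (Or.inr rfl) hX) (by rw [tr, this, Matrix.trace_zero])⟩
  ext w i
  simp [mact_fx φ h, both.1, both.2]

theorem exists_smooth {X : Matrix (Fin 3) (Fin 3) (MonoidAlgebra k Grp)} (hX : X * X = X)
    (ht : (X.map (Ch φ fx_zero 0)).trace = 1) :
    ∃ g : (Fin 4 → ℝ) → Eu, ContDiff ℝ ∞ g ∧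
      (∀ x (m : Fin 4 → ℤ), g (x + fun i => m i * (2 * π)) = g x) ∧
      ∀ x, mact φ X x (g x) ≠ 0 := by
  obtain ⟨a, a0, a1, a2⟩ := idem_one _ (Yr_idem φ fx_zero (Or.inl rfl) hX) (by
    apply ofReal_injective
    rw [Yr_trace φ fx_zero (Or.inl rfl), ht, ofReal_one])
  obtain ⟨b, b0, b1, b2⟩ := idem_one _ (Yr_idem φ fx_zero (Or.inr rfl) hX) (by
    apply ofReal_injective
    rw [Yr_trace φ fx_zero (Or.inr rfl), trace_Ch φ fx_zero X hX, ht, ofReal_one])
  obtain ⟨γ, c, p, h⟩ := exists_section (mact φ X) (cont_mact φ X)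
    (fun x => by rw [mact_mul, hX]) CE CE_inner CE_CE (mact_neg φ X) (mact_per φ X)
    (WithLp.toLp 2 fun i => (a i : ℂ)) (WithLp.toLp 2 fun i => (b i : ℂ) * I)
    (fun e => a0 (funext fun i => by simpa using congrArg (fun v : Eu => v i) e))
    (fun e => b0 (funext fun i => by simpa using congrArg (fun v : Eu => v i) e))
    (by
      ext i
      simp [CE_apply])
    (by
      ext i
      simp [CE_apply])
    (by
      ext i
      simp [mact_fx φ fx_zero, a1, ← Pi.zero_def])
    (by
      ext i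
      simp [mact_fx φ fx_zero, b1, ← Pi.zero_def])
    (fun w => by
      obtain ⟨s, hs⟩ := a2 fun l => (w l).re
      obtain ⟨t, ht⟩ := b2 fun l => (w l).im
      refine ⟨s, t, ?_⟩
      ext i
      simp [mact_fx φ fx_zero, hs, ht, mul_assoc])
    (fun j ε hε => mact_zero φ (fx_update j) hX ε hε)
  exact smooth_section (mact φ X) (cont_mact φ X) (mact_per φ X) γ c p h

include φ in
theorem no_split [IsDomain k] [IsNoetherianRing k]
    (X X' : Matrix (Fin 3) (Fin 3) (MonoidAlgebra k Grp)) (hX : X * X = X) (hX' : X' * X' = X')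
    (h0 : X ≠ 0) (h0' : X' ≠ 0) (r : Fin 3 → MonoidAlgebra k Grp) (hr : ∑ i, r i * rho k i = 1)
    (hs : X + X' + Matrix.vecMulVec (rho k) r = 1) (hρ : X.mulVec (rho k) = 0) : False := by
  have ht : (X.map (Ch φ fx_zero 0)).trace = 1 := by
    have t1 := trace_ne_zero φ X hX h0
    have t2 := trace_ne_zero φ X' hX' h0'
    have t3 : (X.map (Ch φ fx_zero 0)).trace + (X'.map (Ch φ fx_zero 0)).trace = 2 := by
      have e1 := congrArg (fun Y => (Matrix.map Y (Ch φ fx_zero 0)).trace) hs
      have e2 := congrArg (Ch φ fx_zero 0) hr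
      simp only [Matrix.trace, Matrix.diag_apply, Matrix.map_apply, Matrix.add_apply, map_add,
        Matrix.vecMulVec_apply, map_mul, Finset.sum_add_distrib, Matrix.one_apply_eq, map_one,
        map_sum, mul_comm (Ch φ fx_zero 0 (r _))] at e1 e2 ⊢
      rw [e2] at e1
      simp only [Finset.sum_const, Finset.card_univ, Fintype.card_fin, nsmul_eq_mul, mul_one,
        Nat.cast_ofNat] at e1
      linear_combination e1
    rw [idem_trace _ (by rw [← Matrix.map_mul, hX])] at t1 t3 ⊢
    rw [idem_trace _ (by rw [← Matrix.map_mul, hX'])] at t2 t3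
    norm_cast at t1 t2 t3 ⊢
    omega
  obtain ⟨g, c, p, h⟩ := exists_smooth φ hX ht
  refine topo (fun i θ => g θ i) (fun i => ⟨?_, fun j y => ?_⟩) fun s θ z hz e => ?_
  · have : ContDiff ℝ ∞ th := contDiff_pi.2 fun i => contDiff_apply ℝ ℝ _
    exact ((PiLp.proj 2 (fun _ : Fin 3 => ℂ) i : Eu →L[ℝ] ℂ).contDiff.comp (c.comp this) :)
  · rw [← p (th y) fun l => if l.castSucc = j then 1 else 0]
    refine congrArg (fun x => g x i) ?_
    ext l
    by_cases e : l.castSucc = j <;> simp [th, e]
  · have e' : ∀ l, (1 - s) • Rep φ θ (rho k l) z + s • g θ l = 0 := fun l => by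
      simpa [Rep_rho] using e l
    have key : ∀ u : Fin 3 → MonoidAlgebra k Grp,
        (1 - s) • Rep φ θ (∑ l, u l * rho k l) z + s • ∑ l, Rep φ θ (u l) (g θ l) = 0 := by
      intro u
      simp only [map_sum, map_mul, LinearMap.sum_apply, Module.End.mul_apply, Finset.smul_sum,
        ← Finset.sum_add_distrib]
      refine Finset.sum_eq_zero fun l _ => ?_
      rw [← map_smul, ← map_smul (Rep φ θ (u l)), ← map_add, e', map_zero]
    have s0 : s = 0 := by
      by_contra s0
      apply h θ
      ext i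
      have : ∑ l, X i l * rho k l = 0 := congrFun hρ i
      simpa [this, s0, mact_apply] using key (X i)
    apply hz
    simpa [s0, hr] using key r

theorem split_matrices {A : Type*} [Ring A] (ρ r : Fin 3 → A) (hr : ∑ i, r i * ρ i = 1)
    (P : Submodule A (Fin 3 → A)) (hP : ∀ v, v ∈ P ↔ ∑ i, v i * ρ i = 0)
    (M N : Submodule A P) (h : IsCompl M N) (hM : M ≠ ⊥) (hN : N ≠ ⊥) :
    ∃ X X' : Matrix (Fin 3) (Fin 3) A, X * X = X ∧ X' * X' = X' ∧ X ≠ 0 ∧ X' ≠ 0 ∧
      X + X' + Matrix.vecMulVec ρ r = 1 ∧ X.mulVec ρ = 0 := by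
  set L := Fintype.linearCombination A ρ with hL
  have hLv : ∀ v, L v = ∑ i, v i * ρ i := fun v => by
    simp [hL, Fintype.linearCombination_apply]
  let pr : (Fin 3 → A) →ₗ[A] P :=
    (LinearMap.id - (LinearMap.toSpanSingleton _ _ r).comp L).codRestrict P fun v => by
      rw [hP, ← hLv]
      simp [hLv r, hr]
  have hpr : ∀ v, (pr v).1 = v - L v • r := fun v => rfl
  have hpr' : ∀ p : P, pr p.1 = p := fun p => Subtype.ext (by
    rw [hpr, hLv, (hP _).1 p.2, zero_smul, sub_zero])
  let f : ∀ M N : Submodule A P, IsCompl M N → (Fin 3 → A) →ₗ[A] (Fin 3 → A) :=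
    fun M N h => P.subtype ∘ₗ M.projection N h ∘ₗ pr
  have idem : ∀ M N h, LinearMap.toMatrixRight' (f M N h) * LinearMap.toMatrixRight' (f M N h) =
      LinearMap.toMatrixRight' (f M N h) := fun M N h => by
    rw [← LinearMap.toMatrixRight'_comp]
    refine congrArg _ (LinearMap.ext fun v => ?_)
    simp only [f, LinearMap.comp_apply, Submodule.subtype_apply, hpr']
    rw [Submodule.projection_apply_of_mem_left h (Submodule.projection_apply_mem h _)]
  have ne : ∀ M N h, M ≠ ⊥ → LinearMap.toMatrixRight' (f M N h) ≠ 0 := fun M N h hM e => by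
    rw [EmbeddingLike.map_eq_zero_iff] at e
    refine hM ((Submodule.eq_bot_iff _).2 fun m hm => Subtype.ext ?_)
    have := LinearMap.congr_fun e m.1
    simp only [f, LinearMap.comp_apply, Submodule.subtype_apply, hpr'] at this
    rwa [Submodule.projection_apply_of_mem_left h hm] at this
  refine ⟨_, _, idem M N h, idem N M h.symm, ne M N h hM, ne N M h.symm hN, ?_, ?_⟩
  · ext i j
    have e1 := congrArg (fun p : P => p.1 j)
      (Submodule.projection_add_projection_eq_self h (pr (Pi.single i 1)))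
    have e2 : L (Pi.single i 1) = ρ i := by simp [hL]
    simp only [hpr, e2, Submodule.coe_add, Pi.add_apply, Pi.sub_apply, Pi.smul_apply,
      smul_eq_mul] at e1
    rw [Matrix.add_apply, Matrix.add_apply, Matrix.vecMulVec_apply]
    change (M.projection N h (pr (Pi.single i 1))).1 j +
      (N.projection M h.symm (pr (Pi.single i 1))).1 j + _ = _
    rw [e1, sub_add_cancel, Matrix.one_apply, Pi.single_apply]
    simp only [eq_comm]
  · ext i
    exact (hP _).1 (M.projection N h (pr (Pi.single i 1))).2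

include φ in
theorem indecomposable [IsDomain k] [IsNoetherianRing k]
    (M N : Submodule (MonoidAlgebra k Grp) (PP k)) (h : IsCompl M N) : M = ⊥ ∨ N = ⊥ := by
  by_contra hne
  push Not at hne
  obtain ⟨r, hr⟩ := exists_left_inverse (k := k)
  obtain ⟨X, X', h1, h2, h3, h4, h5, h6⟩ := split_matrices (rho k) r hr (PP k)
    (fun v => by simp [PP, Fintype.linearCombination_apply]) M N h hne.1 hne.2
  exact no_split φ X X' h1 h2 h3 h4 r hr h5 h6

theorem no_embedding [Nontrivial k] (f : PP k →ₗ[MonoidAlgebra k Grp] MonoidAlgebra k Grp) :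
    ¬ Function.Injective f := by
  intro hf
  obtain ⟨e, -⟩ := exists_equiv (k := k)
  refine no_injective ((f.prodMap LinearMap.id).comp e.toLinearMap) ?_
  simp only [LinearMap.coe_comp, LinearEquiv.coe_coe, LinearMap.coe_prodMap]
  exact (hf.prodMap Function.injective_id).comp e.injective

end Pool.Agent.Work.MP_164b00_al.Hedge
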