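import Pool.Agent.Work.MP_164b00_al.Main
import Mathlib.LinearAlgebra.Trace
import Mathlib.Data.Matrix.Composition
import Mathlib.RingTheory.Filtration
import Mathlib.Topology.Instances.Matrix
import Mathlib.Topology.Instances.Nat
import Mathlib.Topology.Connected.TotallyDisconnected

/-!
Ranks of idempotent matrices over the group ring, read in families of representations.
-/

namespace Pool.Agent.Work.MP_164b00_al.Hedge

open Multiplicative Complex
open scoped ComplexConjugate Real

theorem idem_trace {K ι : Type*} [Field K] [Fintype ι] [DecidableEq ι] (Y : Matrix ι ι K)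
    (h : Y * Y = Y) : Y.trace = (Module.finrank K (LinearMap.range (Matrix.toLin' Y)) : K) := by
  have : IsIdempotentElem (Matrix.toLin' Y) := by
    rw [IsIdempotentElem, Module.End.mul_eq_comp, ← Matrix.toLin'_mul, h]
  rw [← Matrix.trace_toLin'_eq, (LinearMap.IsIdempotentElem.isProj_range _ this).trace]

theorem idem_zero {K ι : Type*} [Field K] [CharZero K] [Fintype ι] [DecidableEq ι]
    (Y : Matrix ι ι K) (h : Y * Y = Y) (h0 : Y.trace = 0) : Y = 0 := by
  rw [idem_trace Y h, Nat.cast_eq_zero, Submodule.finrank_eq_zero, LinearMap.range_eq_bot] at h0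
  simpa using h0

theorem idem_one {K ι : Type*} [Field K] [CharZero K] [Fintype ι] [DecidableEq ι]
    (Y : Matrix ι ι K) (h : Y * Y = Y) (h0 : Y.trace = 1) :
    ∃ e : ι → K, e ≠ 0 ∧ Y.mulVec e = e ∧ ∀ w, ∃ a : K, Y.mulVec w = a • e := by
  rw [idem_trace Y h, Nat.cast_eq_one, finrank_eq_one_iff'] at h0
  obtain ⟨⟨_, v, rfl⟩, hv, hs⟩ := h0
  refine ⟨Matrix.toLin' Y v, fun e => hv (Subtype.ext e), ?_, fun w => ?_⟩
  · rw [Matrix.toLin'_apply, Matrix.mulVec_mulVec, h]
  · obtain ⟨a, ha⟩ := hs ⟨Matrix.toLin' Y w, w, rfl⟩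
    exact ⟨a, (congrArg Subtype.val ha).symm⟩

theorem trace_const {T ι : Type*} [TopologicalSpace T] [PreconnectedSpace T] [Fintype ι]
    [DecidableEq ι] (Y : T → Matrix ι ι ℂ) (h : ∀ t, Y t * Y t = Y t)
    (hc : Continuous fun t => (Y t).trace) (s t : T) : (Y s).trace = (Y t).trace := by
  let m : T → ℕ := fun t => Module.finrank ℂ (LinearMap.range (Matrix.toLin' (Y t)))
  have e : ∀ t, (Y t).trace = (m t : ℂ) := fun t => idem_trace _ (h t)
  have cm : Continuous m := by
    rw [Nat.isClosedEmbedding_coe_real.isEmbedding.continuous_iff]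
    refine (Complex.continuous_re.comp hc).congr fun t => ?_
    simp [e]
  rw [e, e, PreconnectedSpace.constant inferInstance cm (x := s) (y := t)]

/-- The unitary character of the quotient. -/
noncomputable def ez (ψ : ℝ) (j : Multiplicative ℤ) : ℂ := exp ((j.toAdd * ψ : ℝ) * I)

theorem ez_one (ψ : ℝ) : ez ψ 1 = 1 := by simp [ez]

theorem ez_mul (ψ : ℝ) (a b : Multiplicative ℤ) : ez ψ (a * b) = ez ψ a * ez ψ b := by
  simp [ez, ← Complex.exp_add, add_mul]

theorem ez_zero (j : Multiplicative ℤ) : ez 0 j = 1 := by simp [ez]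

theorem ez_pi (j : Multiplicative ℤ) : ez π j = if Even j.toAdd then 1 else -1 := by
  have : ez π j = (-1) ^ j.toAdd := by
    rw [ez, ← Complex.exp_pi_mul_I, ← Complex.exp_int_mul]
    push_cast
    rw [mul_assoc]
  rw [this]
  split_ifs with h
  · exact h.neg_one_zpow
  · exact (Int.not_even_iff_odd.1 h).neg_one_zpow

/-- Angles fixed by the involution. -/
def Fx (θ : Fin 4 → ℝ) : Prop := ∀ m, conj (chi θ m) = chi θ m

theorem fx_zero : Fx 0 := fun m => by simp [chi]

theorem fx_update (j : Fin 4) : Fx (Function.update 0 j π) := fun m => by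
  have : ∑ i, (m.toAdd i : ℝ) * Function.update (0 : Fin 4 → ℝ) j π i = m.toAdd j * π := by
    rw [Finset.sum_eq_single j]
    · simp
    · intro b _ hb
      simp [hb]
    · simp
  have e : chi (Function.update 0 j π) m = ez π (ofAdd (m.toAdd j)) := by
    rw [chi, this, ez, toAdd_ofAdd]
  rw [e, ez_pi]
  split_ifs <;> simp

/-- One dimensional representations. -/
noncomputable def ch {θ : Fin 4 → ℝ} (h : Fx θ) (ψ : ℝ) : Grp →* ℂ where
  toFun g := chi θ g.left * ez ψ g.right
  map_one' := by simp [chi_one, ez_one]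
  map_mul' a b := by
    have : chi θ (act a.right b.left) = chi θ b.left := by
      rcases act_cases a.right b.left with e | e <;> rw [e]
      rw [chi_inv, h]
    simp only [SemidirectProduct.mul_left, SemidirectProduct.mul_right, chi_mul, ez_mul, this]
    ring

/-- Two dimensional representations. -/
noncomputable def r2 (θ : Fin 4 → ℝ) (ψ : ℝ) : Grp →* Matrix (Fin 2) (Fin 2) ℂ where
  toFun g := ez ψ g.right • if Even g.right.toAdd then !![chi θ g.left, 0; 0, conj (chi θ g.left)]
    else !![0, chi θ g.left; conj (chi θ g.left), 0]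
  map_one' := by
    simp [chi_one, ez_one, Matrix.one_fin_two]
  map_mul' a b := by
    simp only [SemidirectProduct.mul_left, SemidirectProduct.mul_right, chi_mul, ez_mul, chi_act,
      toAdd_mul, Int.even_add, Matrix.smul_mul, Matrix.mul_smul, smul_smul, mul_comm (ez ψ b.right)]
    congr 1
    by_cases ha : Even a.right.toAdd <;> by_cases hb : Even b.right.toAdd <;>
      simp [ha, hb, cj_even, cj_odd]

theorem r2_even (θ : Fin 4 → ℝ) (ψ : ℝ) {g : Grp} (h : Even g.right.toAdd) :
    r2 θ ψ g = ez ψ g.right • !![chi θ g.left, 0; 0, conj (chi θ g.left)] := by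
  simp only [r2, MonoidHom.coe_mk, OneHom.coe_mk, if_pos h]

theorem r2_odd (θ : Fin 4 → ℝ) (ψ : ℝ) {g : Grp} (h : ¬ Even g.right.toAdd) :
    r2 θ ψ g = ez ψ g.right • !![0, chi θ g.left; conj (chi θ g.left), 0] := by
  simp only [r2, MonoidHom.coe_mk, OneHom.coe_mk, if_neg h]

variable {k : Type} [CommRing k] (φ : k →+* ℝ)

/-- Characters of the group ring. -/
noncomputable def Ch {θ : Fin 4 → ℝ} (h : Fx θ) (ψ : ℝ) : MonoidAlgebra k Grp →+* ℂ :=
  MonoidAlgebra.liftNCRingHom (Complex.ofRealHom.comp φ) (ch h ψ) fun _ _ => Commute.all _ _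

theorem Ch_single {θ : Fin 4 → ℝ} (h : Fx θ) (ψ : ℝ) (g : Grp) (a : k) :
    Ch φ h ψ (MonoidAlgebra.single g a) = φ a * (chi θ g.left * ez ψ g.right) := by
  simp [Ch, MonoidAlgebra.liftNCRingHom_single, ch]

/-- Two dimensional representations of the group ring. -/
noncomputable def R2 (θ : Fin 4 → ℝ) (ψ : ℝ) : MonoidAlgebra k Grp →+* Matrix (Fin 2) (Fin 2) ℂ :=
  MonoidAlgebra.liftNCRingHom ((algebraMap ℂ (Matrix (Fin 2) (Fin 2) ℂ)).comp
    (Complex.ofRealHom.comp φ)) (r2 θ ψ) fun x y => Algebra.commutes (φ x : ℂ) (r2 θ ψ y)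

theorem R2_single (θ : Fin 4 → ℝ) (ψ : ℝ) (g : Grp) (a : k) :
    R2 φ θ ψ (MonoidAlgebra.single g a) = (φ a : ℂ) • r2 θ ψ g := by
  rw [R2, MonoidAlgebra.liftNCRingHom_single, Algebra.smul_def]
  rfl

theorem cont_chi (m : Lat) : Continuous fun θ => chi θ m := by
  unfold chi
  fun_prop

theorem cont_ez (j : Multiplicative ℤ) : Continuous fun ψ => ez ψ j := by
  unfold ez
  fun_prop

theorem cont_Ch {θ : Fin 4 → ℝ} (h : Fx θ) (c : MonoidAlgebra k Grp) :
    Continuous fun ψ => Ch φ h ψ c := by
  induction c using MonoidAlgebra.induction_linear with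
  | zero => simpa using continuous_const
  | add a b ha hb => simpa using ha.fun_add hb
  | single g a =>
    simp only [Ch_single]
    exact continuous_const.mul (continuous_const.mul (cont_ez _))

theorem cont_R2 (c : MonoidAlgebra k Grp) :
    Continuous fun p : (Fin 4 → ℝ) × ℝ => (R2 φ p.1 p.2 c).trace := by
  induction c using MonoidAlgebra.induction_linear with
  | zero => simpa using continuous_const
  | add a b ha hb => simpa using ha.fun_add hb
  | single g a =>
    have h1 := cont_chi g.left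
    have h2 := cont_ez g.right
    by_cases hg : Even g.right.toAdd
    · simp only [R2_single, r2_even _ _ hg, Matrix.trace_smul, Matrix.trace_fin_two_of,
        smul_eq_mul]
      fun_prop
    · simp only [R2_single, r2_odd _ _ hg, Matrix.trace_smul, Matrix.trace_fin_two_of,
        smul_eq_mul]
      fun_prop

theorem trace_R2_zero (c : MonoidAlgebra k Grp) :
    (R2 φ 0 0 c).trace = Ch φ fx_zero 0 c + Ch φ fx_zero π c := by
  induction c using MonoidAlgebra.induction_linear with
  | zero => simp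
  | add a b ha hb =>
    simp only [map_add, Matrix.trace_add, ha, hb]
    ring
  | single g a =>
    by_cases hg : Even g.right.toAdd
    · rw [R2_single, r2_even _ _ hg, Ch_single, Ch_single, ez_pi, if_pos hg]
      simp [ez_zero, chi]
    · rw [R2_single, r2_odd _ _ hg, Ch_single, Ch_single, ez_pi, if_neg hg]
      simp [ez_zero, chi]

/-- A group element as a character of the parameter space. -/
noncomputable def dual (g : Grp) : Multiplicative ((Fin 4 → ℝ) × ℝ) →* ℂ where
  toFun p := chi p.toAdd.1 g.left * ez p.toAdd.2 g.right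
  map_one' := by simp [chi, ez]
  map_mul' a b := by
    simp only [chi, ez, toAdd_mul, Prod.fst_add, Prod.snd_add, Pi.add_apply, mul_add,
      Finset.sum_add_distrib, ofReal_add, add_mul, Complex.exp_add]
    ring

theorem ez_inj {a b : Multiplicative ℤ} (h : ∀ t, ez t a = ez t b) : a = b := by
  by_contra hab
  have h0 : ((a.toAdd : ℝ) - b.toAdd) ≠ 0 := by
    rw [sub_ne_zero]
    exact_mod_cast fun e => hab (toAdd.injective e)
  have := h (π / (a.toAdd - b.toAdd))
  rw [ez, ez, show (a.toAdd : ℝ) * (π / (a.toAdd - b.toAdd)) =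
    b.toAdd * (π / (a.toAdd - b.toAdd)) + π by
      field_simp
      ring, ofReal_add, add_mul, Complex.exp_add, Complex.exp_pi_mul_I,
    mul_eq_left₀ (Complex.exp_ne_zero _)] at this
  norm_num at this

theorem dual_injective : Function.Injective dual := by
  intro g g' h
  have hp : ∀ θ ψ, chi θ g.left * ez ψ g.right = chi θ g'.left * ez ψ g'.right := fun θ ψ =>
    DFunLike.congr_fun h (ofAdd (θ, ψ))
  ext : 1
  · ext l
    have e : ∀ (m : Lat) (t : ℝ), chi (Pi.single l t) m = ez t (ofAdd (m.toAdd l)) := by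
      intro m t
      have : ∑ i, (m.toAdd i : ℝ) * (Pi.single l t : Fin 4 → ℝ) i = m.toAdd l * t := by
        rw [Finset.sum_eq_single l] <;> simp +contextual
      rw [chi, this, ez, toAdd_ofAdd]
    exact ofAdd.injective (ez_inj fun t => by simpa [ez_zero, e] using hp (Pi.single l t) 0)
  · exact ez_inj fun t => by simpa [chi] using hp 0 t

theorem faithful (c : MonoidAlgebra k Grp) (h : ∀ θ ψ, R2 φ θ ψ c = 0) (g : Grp) :
    φ (c.coeff g) = 0 := by
  have li := (linearIndependent_monoidHom (Multiplicative ((Fin 4 → ℝ) × ℝ)) ℂ).comp dual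
    dual_injective
  let Φ : (Grp →₀ k) →+ (Grp →₀ ℂ) :=
    Finsupp.mapRange.addMonoidHom (Complex.ofRealHom.comp φ).toAddMonoidHom
  have key : ∀ (c : MonoidAlgebra k Grp) (p : Multiplicative ((Fin 4 → ℝ) × ℝ)),
      Finsupp.linearCombination ℂ ((fun f : Multiplicative ((Fin 4 → ℝ) × ℝ) →* ℂ =>
        (f : _ → ℂ)) ∘ dual) (Φ c.coeff) p =
        R2 φ p.toAdd.1 p.toAdd.2 c 0 0 + R2 φ p.toAdd.1 p.toAdd.2 c 0 1 := by
    intro c p
    induction c using MonoidAlgebra.induction_linear with
    | zero => simp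
    | add a b ha hb =>
      simp only [MonoidAlgebra.coeff_add, map_add, Pi.add_apply, ha, hb, Matrix.add_apply]
      ring
    | single g a =>
      by_cases hg : Even g.right.toAdd
      · simp [Φ, R2_single, r2_even _ _ hg, dual, mul_comm]
      · simp [Φ, R2_single, r2_odd _ _ hg, dual, mul_comm]
  have := linearIndependent_iff.1 li (Φ c.coeff) (funext fun p => by simp [key, h])
  simpa [Φ] using DFunLike.congr_fun this g

theorem krull [IsDomain k] [IsNoetherianRing k] {ι : Type*} [Fintype ι]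
    (X : Matrix ι ι (MonoidAlgebra k Grp)) (hX : X * X = X)
    (h : ∀ i j g, φ ((X i j).coeff g) = 0) : X = 0 := by
  have key : ∀ (n : ℕ) i j g, (X i j).coeff g ∈ RingHom.ker φ ^ n := by
    intro n
    induction n with
    | zero => simp
    | succ n ih =>
      intro i j g
      rw [← hX, Matrix.mul_apply, MonoidAlgebra.coeff_sum, Finsupp.finsetSum_apply]
      refine Ideal.sum_mem _ fun l _ => ?_
      rw [MonoidAlgebra.coeff_mul_apply_left, Finsupp.sum, pow_succ]
      exact Ideal.sum_mem _ fun a _ => Ideal.mul_mem_mul (ih _ _ _) (h _ _ _)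
  ext i j g
  have : (X i j).coeff g ∈ ⨅ n : ℕ, RingHom.ker φ ^ n := Ideal.mem_iInf.2 fun n => key n i j g
  rw [Ideal.iInf_pow_eq_bot_of_isDomain _ (RingHom.ker_ne_top φ)] at this
  simpa using this

theorem trace_Ch {θ : Fin 4 → ℝ} (h : Fx θ) (X : Matrix (Fin 3) (Fin 3) (MonoidAlgebra k Grp))
    (hX : X * X = X) : (X.map (Ch φ h π)).trace = (X.map (Ch φ h 0)).trace := by
  refine trace_const (fun ψ => X.map (Ch φ h ψ)) (fun ψ => by rw [← Matrix.map_mul, hX]) ?_ π 0
  exact continuous_finsetSum _ fun i _ => cont_Ch φ h _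

theorem trace_ne_zero [IsDomain k] [IsNoetherianRing k]
    (X : Matrix (Fin 3) (Fin 3) (MonoidAlgebra k Grp)) (hX : X * X = X) (h0 : X ≠ 0) :
    (X.map (Ch φ fx_zero 0)).trace ≠ 0 := by
  intro ht
  let Y : (Fin 4 → ℝ) × ℝ → Matrix (Fin 3 × Fin 2) (Fin 3 × Fin 2) ℂ := fun p =>
    Matrix.compRingEquiv (Fin 3) (Fin 2) ℂ (X.map (R2 φ p.1 p.2))
  have hY : ∀ p, Y p * Y p = Y p := fun p => by
    simp only [Y]
    rw [← map_mul, ← Matrix.map_mul, hX]
  have tY : ∀ p, (Y p).trace = ∑ i, (R2 φ p.1 p.2 (X i i)).trace := fun p => by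
    simp [Y, Matrix.trace, Fintype.sum_prod_type]
  have t0 : (Y 0).trace = 0 := by
    have := trace_Ch φ fx_zero X hX
    rw [ht] at this
    simp only [Matrix.trace, Matrix.diag_apply, Matrix.map_apply] at this ht
    simp only [tY, Prod.fst_zero, Prod.snd_zero, trace_R2_zero, Finset.sum_add_distrib, this, ht,
      add_zero]
  refine h0 (krull φ X hX fun i j g => faithful φ _ (fun θ ψ => ?_) g)
  have := idem_zero _ (hY (θ, ψ)) ((trace_const Y hY (by
    simp only [tY]
    exact continuous_finsetSum _ fun i _ => cont_R2 φ _) (θ, ψ) 0).trans t0)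
  simp only [Y, EmbeddingLike.map_eq_zero_iff] at this
  exact congrFun (congrFun this i) j

end Pool.Agent.Work.MP_164b00_al.Hedge
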