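import Mathlib.Analysis.SpecificLimits.Normed
import Mathlib.Analysis.SpecialFunctions.Complex.Circle
import Mathlib.Analysis.Normed.Module.FiniteDimension
import Mathlib.Analysis.Convex.Contractible
import Mathlib.Topology.Homotopy.Lifting
import Mathlib.Topology.UniformSpace.HeineCantor
import Mathlib.Topology.MetricSpace.ProperSpace
import Mathlib.Topology.Algebra.Module.LocallyConvex
import Mathlib.Tactic.NoncommRing

/-!
Equivariant transport of a continuous family of idempotents along rays, and angle functions.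
-/

namespace Pool.Agent.Work.MP_164b00_al.Hedge

open Metric

theorem transport {V B : Type*} [NormedAddCommGroup V] [NormedSpace ℝ V] [ProperSpace V]
    [NormedRing B] [CompleteSpace B] (X : V → B) (hX : Continuous X)
    (hid : ∀ x, X x * X x = X x) (c : B) (hc : c * c = 1) (hsym : ∀ x, X (-x) = c * X x * c)
    (R : ℝ) :
    ∃ U : V → B, Continuous U ∧ (∀ x, U (-x) = c * U x * c) ∧
      ∀ x, ‖x‖ ≤ R → IsUnit (U x) ∧ X x * U x = U x * X 0 := by
  have hK : IsCompact (closedBall (0 : V) R) := isCompact_closedBall 0 R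
  obtain ⟨M, hM⟩ := hK.exists_bound_of_continuousOn
    (f := fun x => 2 * X x - 1) (by fun_prop)
  have hM1 : 0 < |M| + 1 := by positivity
  obtain ⟨δ, hδ, hu⟩ := Metric.uniformContinuousOn_iff.1
    (hK.uniformContinuousOn_of_continuous hX.continuousOn) (1 / (|M| + 1)) (by positivity)
  obtain ⟨N, hN⟩ := exists_nat_gt (|R| / δ)
  have hN0 : (0 : ℝ) < N := lt_of_le_of_lt (by positivity) hN
  have key : ∀ m : ℕ, m ≤ N → ∃ U : V → B, Continuous U ∧ (∀ x, U (-x) = c * U x * c) ∧
      ∀ x, ‖x‖ ≤ R → IsUnit (U x) ∧ X (((m : ℝ) / N) • x) * U x = U x * X 0 := by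
    intro m
    induction m with
    | zero => exact fun _ => ⟨fun _ => 1, continuous_const, fun _ => by simp [hc],
        fun x _ => by simp⟩
    | succ m ih =>
      intro hm
      obtain ⟨U, hU, hs, hR⟩ := ih (by omega)
      let P : V → B := fun x => X (((m : ℝ) / N) • x)
      let Q : V → B := fun x => X ((((m + 1 : ℕ) : ℝ) / N) • x)
      have hP : Continuous P := by fun_prop
      have hQ : Continuous Q := by fun_prop
      have sP : ∀ x, P (-x) = c * P x * c := fun x => by simp only [P, smul_neg, hsym]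
      have sQ : ∀ x, Q (-x) = c * Q x * c := fun x => by simp only [Q, smul_neg, hsym]
      refine ⟨fun x => (Q x * P x + (1 - Q x) * (1 - P x)) * U x, by fun_prop, fun x => ?_,
        fun x hx => ⟨?_, ?_⟩⟩
      · simp only [sP, sQ, hs]
        have e : ∀ a b : B, c * a * c * (c * b * c) = c * (a * b) * c := fun a b => by
          rw [show c * a * c * (c * b * c) = c * a * (c * c) * b * c by noncomm_ring, hc]
          noncomm_ring
        have e1 : ∀ a : B, 1 - c * a * c = c * (1 - a) * c := fun a => by
          rw [mul_sub, sub_mul, mul_one, hc]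
        rw [e, e1, e1, e, ← add_mul, ← mul_add, e]
      · refine IsUnit.mul ?_ (hR x hx).1
        have mem : ∀ t : ℝ, 0 ≤ t → t ≤ N → (t / N) • x ∈ closedBall (0 : V) R := fun t h0 h1 => by
          rw [mem_closedBall_zero_iff, norm_smul, Real.norm_of_nonneg (by positivity)]
          have : t / N ≤ 1 := (div_le_one hN0).2 h1
          nlinarith [norm_nonneg x]
        have m1 := mem m (Nat.cast_nonneg _) (by exact_mod_cast (by omega : m ≤ N))
        have m2 := mem ((m + 1 : ℕ) : ℝ) (Nat.cast_nonneg _) (by exact_mod_cast hm)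
        have d : dist (((m : ℝ) / N) • x) ((((m + 1 : ℕ) : ℝ) / N) • x) < δ := by
          rw [dist_eq_norm, ← sub_smul, norm_smul]
          have : (m : ℝ) / N - ((m + 1 : ℕ) : ℝ) / N = -(1 / N) := by
            push_cast
            ring
          rw [this, norm_neg, Real.norm_of_nonneg (by positivity), one_div, inv_mul_lt_iff₀ hN0]
          rw [div_lt_iff₀ hδ] at hN
          exact lt_of_le_of_lt (hx.trans (le_abs_self R)) hN
        have d2 : ‖P x - Q x‖ < 1 / (|M| + 1) := by
          rw [← dist_eq_norm]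
          exact hu _ m1 _ m2 d
        have e : Q x * P x + (1 - Q x) * (1 - P x) = 1 - (P x - Q x) * (2 * P x - 1) := by
          have : P x * P x = P x := hid _
          calc _ = 1 - (P x - Q x) * (2 * P x - 1) + 2 * (P x * P x - P x) := by noncomm_ring
            _ = _ := by rw [this, sub_self, mul_zero, add_zero]
        rw [e]
        refine isUnit_one_sub_of_norm_lt_one ?_
        have b : ‖2 * P x - 1‖ ≤ |M| := (hM _ m1).trans (le_abs_self M)
        calc _ ≤ ‖P x - Q x‖ * ‖2 * P x - 1‖ := norm_mul_le _ _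
          _ ≤ 1 / (|M| + 1) * |M| := by gcongr
          _ < 1 := by
            rw [one_div, inv_mul_lt_iff₀ hM1]
            linarith
      · have h1 : P x * P x = P x := hid _
        have h2 : Q x * Q x = Q x := hid _
        have h3 : P x * U x = U x * X 0 := (hR x hx).2
        change Q x * _ = _
        rw [mul_assoc _ (U x), ← h3, ← mul_assoc, ← mul_assoc]
        congr 1
        calc _ = Q x * Q x * P x + (Q x - Q x * Q x) * (1 - P x) := by noncomm_ring
          _ = Q x * (P x * P x) + (1 - Q x) * (P x - P x * P x) := by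
            rw [h1, h2, sub_self, sub_self, zero_mul, mul_zero]
          _ = _ := by noncomm_ring
  obtain ⟨U, hU, hs, hR⟩ := key N le_rfl
  exact ⟨U, hU, hs, fun x hx => by simpa [div_self hN0.ne'] using hR x hx⟩

theorem exists_angle {V : Type*} [NormedAddCommGroup V] [NormedSpace ℝ V] (a b : V → ℝ)
    (ha : Continuous a) (hb : Continuous b) (h : ∀ x, a x ^ 2 + b x ^ 2 = 1) :
    ∃ α : V → ℝ, Continuous α ∧ ∀ x, Real.cos (α x) = a x ∧ Real.sin (α x) = b x := by
  have hm : ∀ x, (⟨a x, b x⟩ : ℂ) ∈ Submonoid.unitSphere ℂ := fun x => by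
    have := h x
    simp only [Submonoid.unitSphere, Submonoid.mem_mk, Subsemigroup.mem_mk,
      mem_sphere_zero_iff_norm, Complex.norm_eq_sqrt_sq_add_sq, this, Real.sqrt_one]
  have hc : Continuous fun x => (⟨a x, b x⟩ : ℂ) := by
    have : (fun x => (⟨a x, b x⟩ : ℂ)) = fun x => (a x : ℂ) + (b x : ℂ) * Complex.I :=
      funext fun x => Complex.mk_eq_add_mul_I _ _
    rw [this]
    fun_prop
  let g : C(V, Circle) := ⟨fun x => ⟨⟨a x, b x⟩, hm x⟩, hc.subtype_mk hm⟩
  obtain ⟨t, ht⟩ := Circle.exp_surjective (g 0)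
  obtain ⟨F, ⟨-, hF⟩, -⟩ := Circle.isCoveringMap_exp.existsUnique_continuousMap_lifts g 0 t ht
  refine ⟨F, F.continuous, fun x => ?_⟩
  have e : Complex.exp (F x * Complex.I) = ⟨a x, b x⟩ := by
    rw [← Circle.coe_exp]
    exact congrArg Subtype.val (congrFun hF x)
  constructor
  · simpa [Complex.exp_ofReal_mul_I_re] using congrArg Complex.re e
  · simpa [Complex.exp_ofReal_mul_I_im] using congrArg Complex.im e

theorem angle_unique {V : Type*} [TopologicalSpace V] [PreconnectedSpace V] (α β : V → ℝ)
    (ha : Continuous α) (hb : Continuous β)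
    (h : ∀ x, Real.cos (α x) = Real.cos (β x) ∧ Real.sin (α x) = Real.sin (β x)) (x₀ : V)
    (h0 : α x₀ = β x₀) : α = β := by
  refine Circle.isCoveringMap_exp.eq_of_comp_eq ha hb (funext fun x => ?_) x₀ h0
  apply Subtype.ext
  change ((Circle.exp (α x) : Circle) : ℂ) = (Circle.exp (β x) : Circle)
  rw [Circle.coe_exp, Circle.coe_exp]
  apply Complex.ext
  · simpa [Complex.exp_ofReal_mul_I_re] using (h x).1
  · simpa [Complex.exp_ofReal_mul_I_im] using (h x).2

end Pool.Agent.Work.MP_164b00_al.Hedge
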